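import Mathlib
import Pool.Agent.W2helper8.ZQ.All

/-!
`∫_T^{2T} |ζ(1/2+it)|² / |ζ(1+iat)|^{2β} dt ~ D T log T` for all real `a > 0` and `β > 0`, with an explicit `D > 0`.
-/

namespace Pool.Agent.Results.MP_aa9ae4_nt.AllRealShifts

open Finset Filter Topology MeasureTheory Complex

/-- the coefficients of `ζ(s)^b = ∑ d_b(n) n^{-s}`: multiplicative, `d_b(p^e) = b (b+1) ⋯ (b+e-1) / e!` -/
noncomputable def d (b : ℝ) (n : ℕ) : ℝ :=
  if n = 0 then 0 else n.factorization.prod fun _ e => ∏ i ∈ range e, (b + i) / ((i : ℝ) + 1)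

open Classical in
/-- `c(x) = 1 / √(hk)` if `x = h / k` in lowest terms with positive integers `h, k`; `c(x) = 0` for other `x` -/
noncomputable def c (x : ℝ) : ℝ :=
  if H : ∃ p : ℕ × ℕ, 0 < p.1 ∧ 0 < p.2 ∧ Nat.Coprime p.1 p.2 ∧ x = p.1 / p.2 then
    1 / Real.sqrt (H.choose.1 * H.choose.2) else 0

theorem result (a β : ℝ) (ha : 0 < a) (hβ : 0 < β) : ∃ D : ℝ, 0 < D ∧
    Tendsto (fun N : ℕ => ∑ m ∈ Icc 1 N, ∑ n ∈ Icc 1 N,
      d (-β) m * d (-β) n / (m * n) * c (((m : ℝ) / n) ^ a)) atTop (𝓝 D) ∧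
    Tendsto (fun T : ℝ => (∫ t in T..(2 * T), (‖riemannZeta (1 / 2 + t * I)‖ /
      ‖riemannZeta (1 + a * t * I)‖ ^ β) ^ 2) / (T * Real.log T)) atTop (𝓝 D) :=
  Pool.Agent.W2helper8.ZQ.main_all a β ha hβ

end Pool.Agent.Results.MP_aa9ae4_nt.AllRealShifts
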